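import Pool.Agent.Helper97.KB.Stm
import Pool.Agent.Helper98.KB.Block

/-!
# Characters of positive height and a major subsection (package B)
-/

set_option autoImplicit false
set_option linter.style.haveILetI false
set_option linter.unusedSectionVars false

open scoped BigOperators Classical
open Pool.Agent.Helper884 Pool.Agent.H254R3.IN Pool.Agent.N20

noncomputable section

namespace Pool.Agent.Helper90.KB

open Pool.Agent.Helper97.KB

/-- the sum over the pairs, for one character -/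
theorem pair_sum {p k : ℕ} [hp : Fact p.Prime] [NeZero (p ^ (k + 1))]
    (m : ZMod (p ^ (k + 1)) → ℤ) (c : ℤ) (hc0 : 0 ≤ c) (h0 : ∑ i, ch p k i * m i ≠ 0)
    (hc : ∀ i j, RR p k i j → m i ≠ m j → c ≤ (m i - m j) * (m i - m j)) :
    (2 * ((p : ℤ) - 1)) * c ≤
      ∑ i, ∑ j, if RR p k i j then (m i - m j) * (m i - m j) else 0 := by
  have h1 := pair_count m h0
  have h2 : ∑ i, ∑ j, (if RR p k i j then (m i - m j) * (m i - m j) else 0) =
      ∑ q ∈ Finset.univ.filter (fun q : ZMod (p ^ (k + 1)) × ZMod (p ^ (k + 1)) =>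
        RR p k q.1 q.2 ∧ m q.1 ≠ m q.2), (m q.1 - m q.2) * (m q.1 - m q.2) := by
    rw [Finset.sum_filter, Fintype.sum_prod_type]
    refine Finset.sum_congr rfl fun i _ => Finset.sum_congr rfl fun j _ => ?_
    by_cases hR : RR p k i j
    · by_cases hm : m i = m j
      · simp [hR, hm]
      · simp [hR, hm]
    · simp [hR]
  rw [h2]
  have h3 : ((2 * (p - 1) : ℕ) : ℤ) = 2 * ((p : ℤ) - 1) := by
    rw [Nat.cast_mul, Nat.cast_sub hp.out.one_lt.le]
    simp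
  calc (2 * ((p : ℤ) - 1)) * c = ((2 * (p - 1) : ℕ) : ℤ) * c := by rw [h3]
    _ ≤ ((Finset.univ.filter (fun q : ZMod (p ^ (k + 1)) × ZMod (p ^ (k + 1)) =>
        RR p k q.1 q.2 ∧ m q.1 ≠ m q.2)).card : ℤ) * c :=
        mul_le_mul_of_nonneg_right (by exact_mod_cast h1) hc0
    _ = ∑ q ∈ Finset.univ.filter (fun q : ZMod (p ^ (k + 1)) × ZMod (p ^ (k + 1)) =>
        RR p k q.1 q.2 ∧ m q.1 ≠ m q.2), c := by
        rw [Finset.sum_const, nsmul_eq_mul]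
    _ ≤ _ := Finset.sum_le_sum fun q hq =>
        hc q.1 q.2 (Finset.mem_filter.mp hq).2.1 (Finset.mem_filter.mp hq).2.2

/-- Package B. -/
theorem b (hCyc : S_Cyc) (hCen : S_Cen) : S_B := by
  intro G _ _ p hpf O hpO B hB D hD u k hu b hb D' hD' hcard hbB
  have hp : p.Prime := hpf.out
  haveI := charP_RF hpO
  haveI : NeZero (p ^ (k + 1)) := ⟨pow_ne_zero _ hp.ne_zero⟩
  obtain ⟨d, hd⟩ := IsPGroup.iff_card.mp (Pool.Agent.N20.defect_pgroup hD)
  have hD0 : (Nat.card D : ℂ) ≠ 0 := by exact_mod_cast Nat.card_pos.ne'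
  have hp0 : (p : ℂ) ≠ 0 := by exact_mod_cast hp.ne_zero
  have hDp : (Nat.card D : ℂ) = (p : ℂ) ^ d := by rw [hd]; push_cast; rfl
  have hmem : ∀ θ : {θ // θ ∈ XB b}, (θ : CC u → ℂ) ∈ b := fun θ => (mem_XB hb.irr).mp θ.2
  have hirr : ∀ θ : {θ // θ ∈ XB b}, IsIrr (θ : CC u → ℂ) := fun θ => hb.irr _ (hmem θ)
  choose M hM using fun θ η : {θ // θ ∈ XB b} => contr_int hpO hb hD' (hmem θ) (hmem η)
  simp only [hcard] at hM
  obtain ⟨θ₀', hθ₀', hθ₀ne⟩ := exists_uu_ne hpO hb hD'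
  set θ₀ : {θ // θ ∈ XB b} := ⟨θ₀', (mem_XB hb.irr).mpr hθ₀'⟩ with hθ₀def
  have hX : ∀ χ : {χ // χ ∈ IC.Irr G}, IsIrr (χ : G → ℂ) := fun χ => mem_Irr.mp χ.2
  choose n hn using fun (χ : {χ // χ ∈ IC.Irr G}) (η : {θ // θ ∈ XB b}) =>
    mm_int u (hX χ) (hirr η)
  -- the values on the section
  have K1 : ∀ (t : ℕ) (χ : {χ // χ ∈ IC.Irr G}),
      (Nat.card D : ℂ) * JJ p u t (θ₀ : CC u → ℂ) χ = ∑ η : {θ // θ ∈ XB b},
        (M θ₀ η : ℂ) * n χ η * cu u (η : CC u → ℂ) ^ t := by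
    intro t χ
    rw [JJ_eq hpO u hb (hmem θ₀) (hX χ) t, Finset.mul_sum,
      ← Finset.sum_coe_sort (XB b) (fun η : CC u → ℂ =>
        (Nat.card D : ℂ) * (mm u χ η * cu u η ^ t * IC.B (cut p (θ₀ : CC u → ℂ)) η))]
    refine Finset.sum_congr rfl fun η _ => ?_
    rw [hM, hn]
    ring
  have K2 : ∀ (t : ℕ), Nat.Coprime t p →
      ∑ χ : {χ // χ ∈ IC.Irr G}, (starRingEnd ℂ)
        ((Nat.card D : ℂ) * JJ p u t (θ₀ : CC u → ℂ) χ) *
        ((Nat.card D : ℂ) * JJ p u t (θ₀ : CC u → ℂ) χ) = (Nat.card D : ℂ) * M θ₀ θ₀ := by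
    intro t ht
    have h1 := sec_frame hu ht (a := (θ₀ : CC u → ℂ)) (a' := (θ₀ : CC u → ℂ))
      (fun s => (Pool.Agent.Y62.conj_char (hirr θ₀) s).symm) (fun g y => (hirr θ₀).conj g y)
      (fun s => (Pool.Agent.Y62.conj_char (hirr θ₀) s).symm)
    rw [← Finset.sum_coe_sort (IC.Irr G) (fun χ : G → ℂ =>
      (starRingEnd ℂ) (JJ p u t (θ₀ : CC u → ℂ) χ) * JJ p u t (θ₀ : CC u → ℂ) χ)] at h1
    rw [hM, ← h1, Finset.mul_sum, Finset.mul_sum]
    refine Finset.sum_congr rfl fun χ _ => ?_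
    rw [map_mul, Complex.conj_natCast]
    ring
  have hcu : ∀ η : {θ // θ ∈ XB b}, ∃ j, ch p k j = cu u (η : CC u → ℂ) := by
    intro η
    apply exists_jj
    rw [← hu]
    exact cu_pow u (hirr η)
  choose jj hjj using hcu
  set m : {χ // χ ∈ IC.Irr G} → ZMod (p ^ (k + 1)) → ℤ :=
    fun χ i => ∑ η, M θ₀ η * (if jj η = i then n χ η else 0) with hm
  have K4 : ∀ (t : ZMod (p ^ (k + 1))) (χ : {χ // χ ∈ IC.Irr G}),
      ∑ i, ch p k (t * i) * m χ i = (Nat.card D : ℂ) * JJ p u t.val (θ₀ : CC u → ℂ) χ := by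
    intro t χ
    rw [K1]
    simp only [hm]
    push_cast
    simp only [Finset.mul_sum]
    rw [Finset.sum_comm]
    refine Finset.sum_congr rfl fun η _ => ?_
    rw [Finset.sum_eq_single (jj η)]
    · rw [if_pos rfl, ← hjj, ← AddChar.map_nsmul_eq_pow, nsmul_eq_mul, ZMod.natCast_zmod_val]
      ring
    · intro i _ hi
      rw [if_neg (Ne.symm hi)]
      ring
    · intro h
      exact absurd (Finset.mem_univ _) h
  have hval1 : (1 : ZMod (p ^ (k + 1))).val = 1 := by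
    haveI : Fact (1 < p ^ (k + 1)) := ⟨Nat.one_lt_pow (Nat.succ_ne_zero k) hp.one_lt⟩
    exact ZMod.val_one _
  -- the frame
  have hfr : ∑ χ : {χ // χ ∈ IC.Irr G}, ∑ i, ∑ j,
      (if RR p k i j then (m χ i - m χ j) * (m χ i - m χ j) else 0) =
      2 * ((p : ℤ) - 1) * (p ^ d * M θ₀ θ₀) := by
    refine int_frame (fun χ i => m χ i) (fun χ i => m χ i) (p ^ d * M θ₀ θ₀) ?_
    intro t ht
    simp only [K4]
    have ht' : Nat.Coprime t.val p := by
      rw [mem_NT] at ht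
      exact ((Nat.Prime.coprime_iff_not_dvd hp).mpr ht).symm
    rw [K2 t.val ht', hDp]
    push_cast
    rfl
  -- the contribution
  have hcen : (p : ℤ) ^ (k + 1) * M θ₀ θ₀ ≤ p ^ d := by
    have h1 := hCen G p u (k + 1) hu (θ₀ : CC u → ℂ) (hirr θ₀)
    have h2 : IC.B (cut p (θ₀ : CC u → ℂ)) θ₀ = (((M θ₀ θ₀ : ℝ) / (p : ℝ) ^ d : ℝ) : ℂ) := by
      push_cast
      rw [hM, ← hDp, mul_div_cancel_left₀ _ hD0]
    rw [h2, Complex.ofReal_re] at h1
    have h3 : (0 : ℝ) < (p : ℝ) ^ d := by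
      have : (0 : ℝ) < p := by exact_mod_cast hp.pos
      positivity
    rw [← mul_div_assoc, div_le_iff₀ h3, one_mul] at h1
    exact_mod_cast h1
  -- the value at one character
  have hx : ∀ χ : {χ // χ ∈ IC.Irr G}, ∑ i, ch p k i * m χ i =
      uu D (χ : G → ℂ) * TG p u χ (θ₀ : CC u → ℂ) := by
    intro χ
    have h1 := K4 1 χ
    rw [hval1] at h1
    simp only [one_mul] at h1
    rw [h1, card_JJ hu D (hX χ) (hirr θ₀)]
  have hTG : ∀ χ : {χ // χ ∈ IC.Irr G}, (χ : G → ℂ) ∈ B →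
      red O (TG p u χ (θ₀ : CC u → ℂ)) ≠ 0 := by
    intro χ hχ
    rw [red_TG hpO hB hD hu hb hD' hcard hbB hχ (hmem θ₀)]
    exact mul_ne_zero hθ₀ne (cc_ne hpO hB hD hχ)
  have hxne : ∀ χ : {χ // χ ∈ IC.Irr G}, (χ : G → ℂ) ∈ B → ∑ i, ch p k i * m χ i ≠ 0 := by
    intro χ hχ
    rw [hx]
    refine mul_ne_zero (uu_ne (hX χ)) fun h => ?_
    exact hTG χ hχ (by rw [h, red_zero])
  -- the lower bound for one character
  have hlow0 : ∀ χ : {χ // χ ∈ IC.Irr G}, (χ : G → ℂ) ∈ B →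
      (2 * ((p : ℤ) - 1)) * 1 ≤
        ∑ i, ∑ j, if RR p k i j then (m χ i - m χ j) * (m χ i - m χ j) else 0 := by
    intro χ hχ
    refine pair_sum (m χ) 1 zero_le_one (hxne χ hχ) fun i j _ hij => ?_
    have : m χ i - m χ j ≠ 0 := sub_ne_zero.2 hij
    have h2 := mul_self_pos.2 this
    omega
  have hlow1 : ∀ χ : {χ // χ ∈ IC.Irr G}, (χ : G → ℂ) ∈ B → red O (uu D (χ : G → ℂ)) = 0 →
      (2 * ((p : ℤ) - 1)) * p ^ 2 ≤
        ∑ i, ∑ j, if RR p k i j then (m χ i - m χ j) * (m χ i - m χ j) else 0 := by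
    intro χ hχ h0
    refine pair_sum (m χ) (p ^ 2) (by positivity) (hxne χ hχ) fun i j hR hij => ?_
    obtain ⟨n', -, hn'⟩ := IsIrr.deg (hX χ)
    have hG0 : Nat.card G ≠ 0 := Nat.card_pos.ne'
    have huu : uu D (χ : G → ℂ) = ((n' * Nat.card D : ℕ) : ℂ) / (Nat.card G : ℕ) := by
      unfold uu
      rw [← hn']
      push_cast
      ring
    have h1 : uu D (χ : G → ℂ) / p ∈ O := by
      have h2 := Pool.Agent.N20.uu_mem hpO hB hD hχ
      rw [huu] at h2 ⊢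
      have h3 : red O (((n' * Nat.card D : ℕ) : ℂ) / (Nat.card G : ℕ)) = 0 := by
        rw [← huu]; exact h0
      exact Pool.Agent.Helper98.KB.div_p_mem hpO hG0 h2 h3
    have h2 : (∑ i, ch p k i * m χ i) / p ∈ O := by
      rw [hx]
      have : uu D (χ : G → ℂ) * TG p u χ (θ₀ : CC u → ℂ) / p =
          (uu D (χ : G → ℂ) / p) * TG p u χ (θ₀ : CC u → ℂ) := by ring
      rw [this]
      exact O.mul_mem _ _ h1 (TG_mem (hX χ) (hirr θ₀))
    obtain ⟨e, he⟩ := hCyc p k O hpO (m χ) h2 i j hR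
    have hne : m χ i - m χ j ≠ 0 := sub_ne_zero.2 hij
    rw [he] at hne ⊢
    have he0 : e ≠ 0 := right_ne_zero_of_mul hne
    have h3 : 1 ≤ e * e := by
      have := mul_self_pos.2 he0
      omega
    have hp2 : (0 : ℤ) ≤ (p : ℤ) ^ 2 := by positivity
    calc (p : ℤ) ^ 2 = p ^ 2 * 1 := by ring
      _ ≤ p ^ 2 * (e * e) := mul_le_mul_of_nonneg_left h3 hp2
      _ = _ := by ring
  have hnon : ∀ χ : {χ // χ ∈ IC.Irr G}, (0 : ℤ) ≤
        ∑ i, ∑ j, if RR p k i j then (m χ i - m χ j) * (m χ i - m χ j) else 0 := by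
    intro χ
    refine Finset.sum_nonneg fun i _ => Finset.sum_nonneg fun j _ => ?_
    split_ifs
    · exact mul_self_nonneg _
    · exact le_refl _
  -- the cardinalities
  have hk0 : k0 O B D = (Finset.univ.filter (fun χ : {χ // χ ∈ IC.Irr G} =>
      (χ : G → ℂ) ∈ B ∧ red O (uu D (χ : G → ℂ)) ≠ 0)).card := by
    unfold k0
    rw [← Fintype.card_subtype, ← Nat.card_eq_fintype_card]
    refine Nat.card_congr ?_
    exact
      { toFun := fun χ => ⟨⟨χ, mem_Irr.mpr (hB.irr χ χ.2.1)⟩, χ.2⟩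
        invFun := fun χ => ⟨χ.1, χ.2⟩
        left_inv := fun _ => rfl
        right_inv := fun _ => rfl }
  have hk1 : k1 O B D = (Finset.univ.filter (fun χ : {χ // χ ∈ IC.Irr G} =>
      (χ : G → ℂ) ∈ B ∧ red O (uu D (χ : G → ℂ)) = 0)).card := by
    unfold k1
    rw [← Fintype.card_subtype, ← Nat.card_eq_fintype_card]
    refine Nat.card_congr ?_
    exact
      { toFun := fun χ => ⟨⟨χ, mem_Irr.mpr (hB.irr χ χ.2.1)⟩, χ.2⟩
        invFun := fun χ => ⟨χ.1, χ.2⟩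
        left_inv := fun _ => rfl
        right_inv := fun _ => rfl }
  have hdisj : Disjoint (Finset.univ.filter (fun χ : {χ // χ ∈ IC.Irr G} =>
      (χ : G → ℂ) ∈ B ∧ red O (uu D (χ : G → ℂ)) ≠ 0))
      (Finset.univ.filter (fun χ : {χ // χ ∈ IC.Irr G} =>
      (χ : G → ℂ) ∈ B ∧ red O (uu D (χ : G → ℂ)) = 0)) := by
    rw [Finset.disjoint_filter]
    rintro χ _ ⟨_, h⟩ ⟨_, h'⟩
    exact h h'
  have hmain : (2 * ((p : ℤ) - 1)) * (k0 O B D + p ^ 2 * k1 O B D) ≤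
      2 * ((p : ℤ) - 1) * (p ^ d * M θ₀ θ₀) := by
    rw [← hfr]
    calc (2 * ((p : ℤ) - 1)) * (k0 O B D + p ^ 2 * k1 O B D)
        = ∑ χ ∈ Finset.univ.filter (fun χ : {χ // χ ∈ IC.Irr G} =>
            (χ : G → ℂ) ∈ B ∧ red O (uu D (χ : G → ℂ)) ≠ 0), (2 * ((p : ℤ) - 1)) * 1 +
          ∑ χ ∈ Finset.univ.filter (fun χ : {χ // χ ∈ IC.Irr G} =>
            (χ : G → ℂ) ∈ B ∧ red O (uu D (χ : G → ℂ)) = 0), (2 * ((p : ℤ) - 1)) * p ^ 2 := by
          rw [Finset.sum_const, Finset.sum_const, hk0, hk1, nsmul_eq_mul, nsmul_eq_mul]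
          ring
      _ ≤ ∑ χ ∈ Finset.univ.filter (fun χ : {χ // χ ∈ IC.Irr G} =>
            (χ : G → ℂ) ∈ B ∧ red O (uu D (χ : G → ℂ)) ≠ 0),
            (∑ i, ∑ j, if RR p k i j then (m χ i - m χ j) * (m χ i - m χ j) else 0) +
          ∑ χ ∈ Finset.univ.filter (fun χ : {χ // χ ∈ IC.Irr G} =>
            (χ : G → ℂ) ∈ B ∧ red O (uu D (χ : G → ℂ)) = 0),
            (∑ i, ∑ j, if RR p k i j then (m χ i - m χ j) * (m χ i - m χ j) else 0) :=
          add_le_add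
            (Finset.sum_le_sum fun χ hχ => hlow0 χ (Finset.mem_filter.mp hχ).2.1)
            (Finset.sum_le_sum fun χ hχ => hlow1 χ (Finset.mem_filter.mp hχ).2.1
              (Finset.mem_filter.mp hχ).2.2)
      _ = ∑ χ ∈ (Finset.univ.filter (fun χ : {χ // χ ∈ IC.Irr G} =>
            (χ : G → ℂ) ∈ B ∧ red O (uu D (χ : G → ℂ)) ≠ 0)) ∪
            (Finset.univ.filter (fun χ : {χ // χ ∈ IC.Irr G} =>
            (χ : G → ℂ) ∈ B ∧ red O (uu D (χ : G → ℂ)) = 0)),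
            (∑ i, ∑ j, if RR p k i j then (m χ i - m χ j) * (m χ i - m χ j) else 0) := by
          rw [Finset.sum_union hdisj]
      _ ≤ _ := Finset.sum_le_sum_of_subset_of_nonneg (Finset.subset_univ _)
          fun χ _ _ => hnon χ
  have hp1 : (0 : ℤ) < 2 * ((p : ℤ) - 1) := by
    have : (1 : ℤ) < p := by exact_mod_cast hp.one_lt
    linarith
  have h5 := le_of_mul_le_mul_left hmain hp1
  have h6 : (p : ℤ) ^ (k + 1) * (k0 O B D + p ^ 2 * k1 O B D) ≤ (p ^ d) ^ 2 := by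
    calc (p : ℤ) ^ (k + 1) * (k0 O B D + p ^ 2 * k1 O B D)
        ≤ p ^ (k + 1) * (p ^ d * M θ₀ θ₀) := mul_le_mul_of_nonneg_left h5 (by positivity)
      _ = p ^ d * (p ^ (k + 1) * M θ₀ θ₀) := by ring
      _ ≤ p ^ d * p ^ d := mul_le_mul_of_nonneg_left hcen (by positivity)
      _ = _ := by ring
  rw [hd]
  exact_mod_cast h6

end Pool.Agent.Helper90.KB
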