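import Pool.Agent.Helper97.KB.Stm

/-!
# The contribution of the `p`-regular elements of a centraliser (package Cen)
-/

set_option autoImplicit false

open scoped BigOperators Classical
open Pool.Agent.Helper884 Pool.Agent.H254R3.IN Pool.Agent.N20

noncomputable section

namespace Pool.Agent.Helper90.KB

/-- Package Cen. -/
theorem cen : Pool.Agent.Helper97.KB.S_Cen := by
  intro G _ _ p _ u k hu θ hθ
  have hp : p.Prime := Fact.out
  have hH0 : (0 : ℝ) < (Nat.card (CC u) : ℝ) := by exact_mod_cast Nat.card_pos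
  have hval : ∀ h : CC u, θ h * θ h⁻¹ = ((‖θ h‖ ^ 2 : ℝ) : ℂ) := by
    intro h
    rw [Pool.Agent.Y62.conj_char hθ, Complex.mul_conj, Complex.normSq_eq_norm_sq]
  have h1 : (IC.B θ θ) = 1 := by
    rw [IC.B_irr hθ hθ, if_pos rfl]
  have h2 : ∑ h : CC u, ‖θ h‖ ^ 2 = Nat.card (CC u) := by
    have h3 : (Nat.card (CC u) : ℂ)⁻¹ * ∑ h : CC u, θ h * θ h⁻¹ = 1 := h1
    simp only [hval] at h3
    rw [inv_mul_eq_iff_eq_mul₀ (by exact_mod_cast hH0.ne'), mul_one] at h3
    exact_mod_cast h3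
  have h4 : (IC.B (cut p θ) θ) =
      (((Nat.card (CC u) : ℝ)⁻¹ * ∑ h ∈ Finset.univ.filter (fun h : CC u => ¬ p ∣ orderOf h),
        ‖θ h‖ ^ 2 : ℝ) : ℂ) := by
    change (Nat.card (CC u) : ℂ)⁻¹ * ∑ h : CC u, cut p θ h * θ h⁻¹ = _
    push_cast
    congr 1
    rw [Finset.sum_filter]
    refine Finset.sum_congr rfl fun h _ => ?_
    unfold cut
    by_cases hh : p ∣ orderOf h
    · rw [if_pos hh, if_neg (not_not.2 hh), zero_mul]
    · rw [if_neg hh, if_pos hh, hval]
      push_cast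
      rfl
  have hcu : ‖cu u θ‖ = 1 := by
    have h5 := cu_pow u hθ
    rw [hu] at h5
    exact Complex.norm_eq_one_of_pow_eq_one h5 (pow_ne_zero _ hp.ne_zero)
  have hnorm : ∀ (t : ℕ) (h : CC u), ‖θ ((uc u) ^ t * h)‖ = ‖θ h‖ := by
    intro t h
    rw [cu_val u hθ, norm_mul, norm_pow, hcu, one_pow, one_mul]
  have hord : orderOf (uc u) = p ^ k := by
    rw [← Subgroup.orderOf_coe]
    exact hu
  -- the injection
  have hinj : Set.InjOn (fun x : ℕ × CC u => (uc u) ^ x.1 * x.2)
      ((Finset.range (p ^ k) ×ˢ Finset.univ.filter (fun h : CC u => ¬ p ∣ orderOf h) :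
        Finset (ℕ × CC u)) : Set (ℕ × CC u)) := by
    rintro ⟨t, s⟩ hts ⟨t', s'⟩ hts' heq
    simp only [Finset.coe_product, Set.mem_prod, Finset.mem_coe, Finset.mem_range,
      Finset.mem_filter, Finset.mem_univ, true_and] at hts hts'
    simp only at heq
    have hcomm : ∀ h : CC u, Commute (uc u) h := fun h => uc_comm u h
    -- `s' = z s`
    set z : CC u := ((uc u) ^ t')⁻¹ * (uc u) ^ t with hz
    have hs' : s' = z * s := by
      rw [hz, mul_assoc, heq, inv_mul_cancel_left]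
    have hzs : Commute z s := by
      rw [hz]
      exact ((hcomm s).pow_left t').inv_left.mul_left ((hcomm s).pow_left t)
    have hzp : z ^ (p ^ k) = 1 := by
      have hc : Commute ((uc u) ^ t')⁻¹ ((uc u) ^ t) :=
        (((Commute.refl (uc u)).pow_left t').inv_left).pow_right t
      rw [hz, hc.mul_pow, inv_pow, ← pow_mul, ← pow_mul, mul_comm t', mul_comm t, pow_mul,
        pow_mul, ← hord, pow_orderOf_eq_one, one_pow, one_pow, inv_one, mul_one]
    have hzm : z ^ (orderOf s' * orderOf s) = 1 := by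
      have h6 : s' ^ (orderOf s' * orderOf s) = 1 := by
        rw [pow_mul, pow_orderOf_eq_one, one_pow]
      have h7 : s ^ (orderOf s' * orderOf s) = 1 := by
        rw [mul_comm, pow_mul, pow_orderOf_eq_one, one_pow]
      rw [hs', hzs.mul_pow] at h6
      rw [← hs'] at h6
      rw [h7, mul_one] at h6
      exact h6
    have hcop : Nat.Coprime (orderOf s' * orderOf s) (p ^ k) := by
      apply Nat.Coprime.pow_right
      exact Nat.Coprime.mul_left ((Nat.Prime.coprime_iff_not_dvd hp).2 hts'.2).symm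
        ((Nat.Prime.coprime_iff_not_dvd hp).2 hts.2).symm
    have hz1 : z = 1 := by
      have h8 := pow_gcd_eq_one.mpr ⟨hzm, hzp⟩
      rw [hcop, pow_one] at h8
      exact h8
    have hss : s' = s := by rw [hs', hz1, one_mul]
    have htt : (uc u) ^ t = (uc u) ^ t' := by
      rw [hz] at hz1
      exact (inv_mul_eq_one.1 hz1).symm
    have ht : t = t' := by
      have h9 := pow_inj_mod.1 htt
      rwa [hord, Nat.mod_eq_of_lt hts.1, Nat.mod_eq_of_lt hts'.1] at h9
    rw [ht, hss]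
  have h5 : (p : ℝ) ^ k * ∑ h ∈ Finset.univ.filter (fun h : CC u => ¬ p ∣ orderOf h), ‖θ h‖ ^ 2 ≤
      Nat.card (CC u) := by
    rw [← h2]
    calc (p : ℝ) ^ k * ∑ h ∈ Finset.univ.filter (fun h : CC u => ¬ p ∣ orderOf h), ‖θ h‖ ^ 2
        = ∑ x ∈ (Finset.range (p ^ k) ×ˢ Finset.univ.filter (fun h : CC u => ¬ p ∣ orderOf h)),
          ‖θ ((uc u) ^ x.1 * x.2)‖ ^ 2 := by
          rw [Finset.sum_product]
          simp only [hnorm]
          rw [Finset.sum_const, Finset.card_range, nsmul_eq_mul]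
          push_cast
          rfl
      _ = ∑ y ∈ (Finset.range (p ^ k) ×ˢ
            Finset.univ.filter (fun h : CC u => ¬ p ∣ orderOf h)).image
            (fun x : ℕ × CC u => (uc u) ^ x.1 * x.2), ‖θ y‖ ^ 2 := by
          rw [Finset.sum_image hinj]
      _ ≤ ∑ h : CC u, ‖θ h‖ ^ 2 :=
          Finset.sum_le_sum_of_subset_of_nonneg (Finset.subset_univ _) fun _ _ _ => by positivity
  rw [h4, Complex.ofReal_re]
  rw [← mul_assoc, mul_comm ((p : ℝ) ^ k), mul_assoc, inv_mul_le_iff₀ hH0, mul_one]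
  exact h5

end Pool.Agent.Helper90.KB
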